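import Mathlib

/-!
# MP_609556_an: the flow `q' = -π(q)` and its tails
-/

set_option autoImplicit false

open MeasureTheory Set Filter Topology

namespace Pool.Agent.H62.RF

/-- existence of the flow -/
theorem flow {a ℓ Λ B : ℝ} {p p' : ℝ → ℝ} (haℓ : a < ℓ) (hd : ∀ x, a < x → HasDerivAt p (p' x) x)
    (hc : ContinuousOn p' (Ioi a)) (hpos : ∀ x, a < x → 0 < p x)
    (hΛ : ∀ x, a < x → x ≤ ℓ → p x ≤ Λ * (x - a)) (hB : ∀ x, ℓ ≤ x → p x ≤ B) :
    ∃ q : ℝ → ℝ, ContDiff ℝ 2 q ∧ q 0 = ℓ ∧ (∀ z, a < q z) ∧ (∀ z, HasDerivAt q (-p (q z)) z) ∧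
      ∀ z, HasDerivAt (deriv q) (p' (q z) * p (q z)) z := by
  have hpc : ContinuousOn p (Ioi a) := fun x hx => (hd x hx).continuousAt.continuousWithinAt
  have hB0 : 0 < B := (hpos ℓ haℓ).trans_le (hB ℓ le_rfl)
  have hΛ0 : 0 < Λ := by
    have h1 := (hpos ℓ haℓ).trans_le (hΛ ℓ haℓ le_rfl)
    exact (mul_pos_iff_of_pos_right (by linarith)).1 h1
  have hic : ContinuousOn (fun s => 1 / p s) (Ioi a) :=
    continuousOn_const.div hpc fun s hs => (hpos s hs).ne'
  obtain ⟨Z, hZ⟩ : ∃ Z : ℝ → ℝ, Z = fun v => ∫ s in ℓ..v, 1 / p s := ⟨_, rfl⟩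
  have hsub : ∀ v, a < v → uIcc ℓ v ⊆ Ioi a := by
    intro v hv s hs
    rw [mem_uIcc] at hs
    rcases hs with h | h
    · exact haℓ.trans_le h.1
    · exact lt_of_lt_of_le hv h.1
  have hZd : ∀ v, a < v → HasDerivAt Z (1 / p v) v := by
    intro v hv
    rw [hZ]
    apply intervalIntegral.integral_hasDerivAt_right
    · exact (hic.mono (hsub v hv)).intervalIntegrable
    · exact hic.stronglyMeasurableAtFilter isOpen_Ioi v hv
    · exact hic.continuousAt (Ioi_mem_nhds hv)
  have hZc : ContinuousOn Z (Ioi a) := fun v hv => (hZd v hv).continuousAt.continuousWithinAt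
  have hZℓ : Z ℓ = 0 := by rw [hZ]; simp
  have hZm : StrictMonoOn Z (Ioi a) := by
    apply strictMonoOn_of_deriv_pos (convex_Ioi _) hZc
    rw [interior_Ioi]
    intro v hv
    rw [(hZd v hv).deriv]
    exact one_div_pos.mpr (hpos v hv)
  -- divergence at infinity
  have hup : ∀ v, ℓ ≤ v → (v - ℓ) / B ≤ Z v := by
    intro v hv
    have h1 : ∫ s in ℓ..v, 1 / B ≤ ∫ s in ℓ..v, 1 / p s := by
      apply intervalIntegral.integral_mono_on hv (by simp)
      · exact (hic.mono (hsub v (haℓ.trans_le hv))).intervalIntegrable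
      · intro s hs
        exact one_div_le_one_div_of_le (hpos s (haℓ.trans_le hs.1)) (hB s hs.1)
    rw [intervalIntegral.integral_const, smul_eq_mul] at h1
    rw [hZ]
    calc (v - ℓ) / B = (v - ℓ) * (1 / B) := by ring
      _ ≤ _ := h1
  -- divergence at `a`
  have hlow : ∀ v, a < v → v ≤ ℓ → Z v ≤ (1 / Λ) * (Real.log (v - a) - Real.log (ℓ - a)) := by
    have hm : MonotoneOn (fun v => Z v - (1 / Λ) * Real.log (v - a)) (Ioc a ℓ) := by
      have hdd : ∀ v ∈ Ioc a ℓ, HasDerivAt (fun v => Z v - (1 / Λ) * Real.log (v - a))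
          (1 / p v - (1 / Λ) * (1 / (v - a))) v := by
        intro v hv
        have h1 := hZd v hv.1
        have h2 : HasDerivAt (fun v : ℝ => v - a) 1 v := (hasDerivAt_id v).sub_const a
        have h3 := (h2.log (by linarith [hv.1])).const_mul (1 / Λ)
        exact h1.sub h3
      apply monotoneOn_of_deriv_nonneg (convex_Ioc _ _)
      · exact fun v hv => (hdd v hv).continuousAt.continuousWithinAt
      · rw [interior_Ioc]
        exact fun v hv => (hdd v ⟨hv.1, hv.2.le⟩).differentiableAt.differentiableWithinAt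
      · rw [interior_Ioc]
        intro v hv
        rw [(hdd v ⟨hv.1, hv.2.le⟩).deriv]
        have h1 := hΛ v hv.1 hv.2.le
        have h2 := hpos v hv.1
        have h3 : 0 < v - a := by linarith [hv.1]
        have h4 : 1 / (Λ * (v - a)) ≤ 1 / p v := one_div_le_one_div_of_le h2 h1
        have h5 : (1 / Λ) * (1 / (v - a)) = 1 / (Λ * (v - a)) := by field_simp
        rw [h5]
        linarith
    intro v hv hvℓ
    have := hm ⟨hv, hvℓ⟩ ⟨haℓ, le_rfl⟩ hvℓ
    simp only [hZℓ] at this
    linarith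
  have hsurj : ∀ x : ℝ, ∃ v ∈ Ioi a, Z v = x := by
    intro x
    obtain ⟨v1, hv1, hx1⟩ : ∃ v ∈ Ioi a, x ≤ Z v := by
      refine ⟨ℓ + B * |x|, ?_, ?_⟩
      · have : 0 ≤ B * |x| := by positivity
        exact mem_Ioi.2 (by linarith)
      · have h1 := hup (ℓ + B * |x|) (by
          have : 0 ≤ B * |x| := by positivity
          linarith)
        have h2 : (ℓ + B * |x| - ℓ) / B = |x| := by field_simp; ring
        rw [h2] at h1
        exact (le_abs_self x).trans h1
    obtain ⟨v2, hv2, hx2⟩ : ∃ v ∈ Ioi a, Z v ≤ x := by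
      have h0 : 0 < ℓ - a := by linarith
      have he : Real.exp (-(Λ * |x|)) ≤ 1 := Real.exp_le_one_iff.2 (by
        have : 0 ≤ Λ * |x| := by positivity
        linarith)
      have he0 := Real.exp_pos (-(Λ * |x|))
      refine ⟨a + (ℓ - a) * Real.exp (-(Λ * |x|)), ?_, ?_⟩
      · have : 0 < (ℓ - a) * Real.exp (-(Λ * |x|)) := by positivity
        exact mem_Ioi.2 (by linarith)
      · have h1 := hlow (a + (ℓ - a) * Real.exp (-(Λ * |x|))) (by
          have : 0 < (ℓ - a) * Real.exp (-(Λ * |x|)) := by positivity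
          linarith) (by nlinarith)
        rw [add_sub_cancel_left, Real.log_mul h0.ne' he0.ne', Real.log_exp] at h1
        have h2 : 1 / Λ * (Real.log (ℓ - a) + -(Λ * |x|) - Real.log (ℓ - a)) = -|x| := by
          field_simp
          ring
        rw [h2] at h1
        exact h1.trans (neg_abs_le x)
    exact (isPreconnected_Ioi (a := a)).intermediate_value hv2 hv1 hZc ⟨hx2, hx1⟩
  choose ψ hψ hψZ using hsurj
  have hψmono : StrictMono ψ := by
    intro x y hxy
    by_contra hcon
    push Not at hcon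
    have := hZm.monotoneOn (hψ y) (hψ x) hcon
    rw [hψZ, hψZ] at this
    linarith
  have hψinv : ∀ v ∈ Ioi a, ψ (Z v) = v := by
    intro v hv
    exact hZm.injOn (hψ _) hv (hψZ _)
  have hrange : range ψ = Ioi a := by
    ext v
    constructor
    · rintro ⟨x, rfl⟩
      exact hψ x
    · intro hv
      exact ⟨Z v, hψinv v hv⟩
  have hψcont : Continuous ψ := by
    rw [continuous_iff_continuousAt]
    intro x
    apply continuousAt_of_monotoneOn_of_closure_image_mem_nhds (hψmono.monotone.monotoneOn univ)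
      univ_mem
    rw [image_univ, hrange]
    exact mem_of_superset (Ioi_mem_nhds (hψ x)) subset_closure
  have hψd : ∀ x, HasDerivAt ψ (p (ψ x)) x := by
    intro x
    have h1 := hZd (ψ x) (hψ x)
    have h2 := HasDerivAt.of_local_left_inverse (hψcont.continuousAt) h1
      (one_div_pos.mpr (hpos _ (hψ x))).ne' (Eventually.of_forall hψZ)
    simpa using h2
  obtain ⟨q, hq⟩ : ∃ q : ℝ → ℝ, q = fun x => ψ (-x) := ⟨_, rfl⟩
  have hqm : ∀ z, a < q z := fun z => by rw [hq]; exact hψ (-z)
  have hqd : ∀ z, HasDerivAt q (-p (q z)) z := by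
    intro z
    have h1 : HasDerivAt (fun x : ℝ => -x) (-1) z := hasDerivAt_neg z
    have h2 : HasDerivAt (fun x => ψ (-x)) (p (ψ (-z)) * (-1)) z :=
      HasDerivAt.comp z (hψd (-z)) h1
    rw [mul_neg_one] at h2
    rw [hq]
    exact h2
  have hqderiv : deriv q = fun z => -p (q z) := funext fun z => (hqd z).deriv
  have hqd2 : ∀ z, HasDerivAt (deriv q) (p' (q z) * p (q z)) z := by
    intro z
    rw [hqderiv]
    have h1 := (HasDerivAt.comp z (hd (q z) (hqm z)) (hqd z)).neg
    have h2 : -(p' (q z) * -p (q z)) = p' (q z) * p (q z) := by ring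
    rw [h2] at h1
    exact h1
  have hqc : Continuous q := continuous_iff_continuousAt.2 fun z => (hqd z).continuousAt
  refine ⟨q, ?_, ?_, hqm, hqd, hqd2⟩
  · have h1 : ContDiff ℝ 1 (deriv q) := by
      rw [contDiff_one_iff_deriv]
      refine ⟨fun z => (hqd2 z).differentiableAt, ?_⟩
      have : deriv (deriv q) = fun z => p' (q z) * p (q z) := funext fun z => (hqd2 z).deriv
      rw [this]
      exact (hc.comp_continuous hqc hqm).mul (hpc.comp_continuous hqc hqm)
    have h2 : ContDiff ℝ (1 + 1) q := by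
      rw [contDiff_succ_iff_deriv]
      exact ⟨fun z => (hqd z).differentiableAt, by simp, h1⟩
    have h3 : ((1 : WithTop ℕ∞) + 1) = 2 := by norm_num
    rwa [h3] at h2
  · rw [hq]
    simp only [neg_zero]
    have := hψinv ℓ haℓ
    rwa [hZℓ] at this

/-- the flow with tails -/
theorem flow_tails {a ℓ r Λ B δ : ℝ} {p p' : ℝ → ℝ} (haℓ : a < ℓ)
    (hd : ∀ x, a < x → HasDerivAt p (p' x) x) (hc : ContinuousOn p' (Ioi a))
    (hpos : ∀ x, a < x → 0 < p x) (hB : ∀ x, ℓ ≤ x → p x ≤ B) (hδ : 0 < δ) (hr : 0 ≤ r)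
    (hrl : ∀ x, a < x → x < a + δ → r * (x - a) ≤ p x)
    (hru : ∀ x, a < x → x < a + δ → p x ≤ Λ * (x - a)) :
    ∃ (q : ℝ → ℝ) (C : ℝ), 1 ≤ C ∧ ContDiff ℝ 2 q ∧ q 0 = ℓ ∧ (∀ z, a < q z) ∧
      (∀ z, deriv q z = -p (q z)) ∧ (∀ z, deriv (deriv q) z = p' (q z) * p (q z)) ∧
      (∀ z, 0 ≤ z → q z ≤ ℓ) ∧ (∀ z, 0 ≤ z → C⁻¹ * Real.exp (-(Λ * z)) ≤ q z - a) ∧
      ∀ z, 0 ≤ z → q z - a ≤ C * Real.exp (-(r * z)) := by
  have hpc : ContinuousOn p (Ioi a) := fun x hx => (hd x hx).continuousAt.continuousWithinAt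
  have hΛ0 : 0 < Λ := by
    have h1 := (hpos (a + δ / 2) (by linarith)).trans_le
      (hru (a + δ / 2) (by linarith) (by linarith))
    exact (mul_pos_iff_of_pos_right (by linarith)).1 h1
  -- bounds on a compact part
  have hKc : ContinuousOn p (Icc (a + δ / 2) (max ℓ (a + δ / 2))) := by
    refine hpc.mono ?_
    intro x hx
    exact mem_Ioi.2 (by linarith [hx.1])
  have hKne : (Icc (a + δ / 2) (max ℓ (a + δ / 2))).Nonempty :=
    ⟨a + δ / 2, le_rfl, le_max_right _ _⟩
  obtain ⟨x0, hx0, hmin⟩ := isCompact_Icc.exists_isMinOn hKne hKc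
  obtain ⟨x1, hx1, hmax⟩ := isCompact_Icc.exists_isMaxOn hKne hKc
  obtain ⟨p0, hp0⟩ : ∃ p0 : ℝ, p0 = p x0 := ⟨_, rfl⟩
  have hp0' : 0 < p0 := by rw [hp0]; exact hpos x0 (by linarith [hx0.1])
  have hlow : ∀ x, a + δ / 2 ≤ x → x ≤ ℓ → p0 ≤ p x := by
    intro x h1 h2
    rw [hp0]
    exact hmin ⟨h1, h2.trans (le_max_left _ _)⟩
  obtain ⟨L', hL'⟩ : ∃ L' : ℝ, L' = Λ + p x1 / (δ / 2) := ⟨_, rfl⟩
  have hpx1 : 0 < p x1 := hpos x1 (by linarith [hx1.1])
  have hup : ∀ x, a < x → x ≤ ℓ → p x ≤ L' * (x - a) := by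
    intro x h1 h2
    have hxa : 0 < x - a := by linarith
    rcases lt_or_ge x (a + δ / 2) with h | h
    · have h3 := hru x h1 (by linarith)
      rw [hL']
      have : 0 ≤ p x1 / (δ / 2) * (x - a) := by positivity
      nlinarith
    · have h3 : p x ≤ p x1 := hmax ⟨h, h2.trans (le_max_left _ _)⟩
      rw [hL']
      have h4 : p x1 ≤ p x1 / (δ / 2) * (x - a) := by
        rw [div_mul_eq_mul_div, le_div_iff₀ (by positivity)]
        exact mul_le_mul_of_nonneg_left (by linarith) hpx1.le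
      have : 0 ≤ Λ * (x - a) := by positivity
      nlinarith
  obtain ⟨q, hq2, hq0, hqa, hqd, hqd2⟩ := flow haℓ hd hc hpos hup hB
  have hqanti : Antitone q := by
    apply antitone_of_deriv_nonpos fun z => (hqd z).differentiableAt
    intro z
    rw [(hqd z).deriv]
    linarith [hpos (q z) (hqa z)]
  have hqℓ : ∀ z, 0 ≤ z → q z ≤ ℓ := by
    intro z hz
    rw [← hq0]
    exact hqanti hz
  have hqc : Continuous q := continuous_iff_continuousAt.2 fun z => (hqd z).continuousAt
  -- the entrance time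
  obtain ⟨z1, hz10, hz1⟩ : ∃ z1 : ℝ, 0 ≤ z1 ∧ q z1 < a + δ := by
    by_contra hcon
    push Not at hcon
    have h1 : ∀ z, 0 ≤ z → q z ≤ ℓ - p0 * z := by
      intro z hz
      have hanti : AntitoneOn (fun z => q z + p0 * z) (Ici 0) := by
        have hdd : ∀ z, HasDerivAt (fun z => q z + p0 * z) (-p (q z) + p0 * 1) z := fun z =>
          (hqd z).add ((hasDerivAt_id z).const_mul p0)
        apply antitoneOn_of_deriv_nonpos (convex_Ici _)
        · exact fun z _ => (hdd z).continuousAt.continuousWithinAt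
        · exact fun z _ => (hdd z).differentiableAt.differentiableWithinAt
        · rw [interior_Ici]
          intro z hz
          rw [(hdd z).deriv]
          have hz0 : (0 : ℝ) ≤ z := (mem_Ioi.1 hz).le
          have := hlow (q z) (by linarith [hcon z hz0]) (hqℓ z hz0)
          linarith
      have := hanti (mem_Ici.2 le_rfl) (mem_Ici.2 hz) hz
      simp only [hq0, mul_zero, add_zero] at this
      linarith
    have h2 := h1 ((ℓ - a) / p0) (by
      have : 0 ≤ ℓ - a := by linarith
      positivity)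
    have h3 := hqa ((ℓ - a) / p0)
    have h4 : p0 * ((ℓ - a) / p0) = ℓ - a := by field_simp
    rw [h4] at h2
    linarith
  have hX : ∀ z, 0 < q z - a := fun z => by linarith [hqa z]
  have hed : ∀ k z : ℝ, HasDerivAt (fun z => (q z - a) * Real.exp (k * z))
      (-p (q z) * Real.exp (k * z) + (q z - a) * (Real.exp (k * z) * (k * 1))) z := by
    intro k z
    have h1 : HasDerivAt (fun z => q z - a) (-p (q z)) z := (hqd z).sub_const a
    have h2 : HasDerivAt (fun z => Real.exp (k * z)) (Real.exp (k * z) * (k * 1)) z :=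
      ((hasDerivAt_id z).const_mul k).exp
    exact h1.mul h2
  -- upper tail after the entrance
  have hup1 : ∀ z, z1 ≤ z → (q z - a) * Real.exp (r * z) ≤ (q z1 - a) * Real.exp (r * z1) := by
    intro z hz
    have hanti : AntitoneOn (fun z => (q z - a) * Real.exp (r * z)) (Ici z1) := by
      apply antitoneOn_of_deriv_nonpos (convex_Ici _)
      · exact fun z _ => (hed r z).continuousAt.continuousWithinAt
      · exact fun z _ => (hed r z).differentiableAt.differentiableWithinAt
      · rw [interior_Ici]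
        intro z hz
        rw [(hed r z).deriv]
        have h1 : q z < a + δ := (hqanti (mem_Ioi.1 hz).le).trans_lt hz1
        have h2 := hrl (q z) (hqa z) h1
        have h3 := Real.exp_pos (r * z)
        nlinarith
    exact hanti (mem_Ici.2 le_rfl) (mem_Ici.2 hz) hz
  have hlow1 : ∀ z, z1 ≤ z → (q z1 - a) * Real.exp (Λ * z1) ≤ (q z - a) * Real.exp (Λ * z) := by
    intro z hz
    have hmono : MonotoneOn (fun z => (q z - a) * Real.exp (Λ * z)) (Ici z1) := by
      apply monotoneOn_of_deriv_nonneg (convex_Ici _)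
      · exact fun z _ => (hed Λ z).continuousAt.continuousWithinAt
      · exact fun z _ => (hed Λ z).differentiableAt.differentiableWithinAt
      · rw [interior_Ici]
        intro z hz
        rw [(hed Λ z).deriv]
        have h1 : q z < a + δ := (hqanti (mem_Ioi.1 hz).le).trans_lt hz1
        have h2 := hru (q z) (hqa z) h1
        have h3 := Real.exp_pos (Λ * z)
        nlinarith
    exact hmono (mem_Ici.2 le_rfl) (mem_Ici.2 hz) hz
  obtain ⟨C, hC⟩ : ∃ C : ℝ, C = 1 + (ℓ - a) * Real.exp (r * z1) + (q z1 - a)⁻¹ := ⟨_, rfl⟩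
  have hX1 := hX z1
  have hℓa : 0 < ℓ - a := by linarith
  have hC1 : 1 ≤ C := by
    rw [hC]
    have : 0 ≤ (ℓ - a) * Real.exp (r * z1) := by positivity
    have : 0 ≤ (q z1 - a)⁻¹ := by positivity
    linarith
  have hCinv : C⁻¹ ≤ q z1 - a := by
    rw [inv_le_comm₀ (by linarith) hX1, hC]
    have : 0 ≤ (ℓ - a) * Real.exp (r * z1) := by positivity
    linarith
  refine ⟨q, C, hC1, hq2, hq0, hqa, fun z => (hqd z).deriv, fun z => (hqd2 z).deriv, hqℓ, ?_, ?_⟩
  · intro z hz
    have h5 : Real.exp (-(Λ * z)) ≤ 1 := Real.exp_le_one_iff.2 (by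
      have : 0 ≤ Λ * z := by positivity
      linarith)
    rcases le_or_gt z1 z with h | h
    · have h1 := hlow1 z h
      have h2 : Real.exp (Λ * z1) ≥ 1 := Real.one_le_exp (by positivity)
      have h3 : Real.exp (-(Λ * z)) * Real.exp (Λ * z) = 1 := by
        rw [← Real.exp_add]; simp
      have h4 : C⁻¹ ≤ (q z - a) * Real.exp (Λ * z) := by
        refine hCinv.trans (le_trans ?_ h1)
        nlinarith
      calc C⁻¹ * Real.exp (-(Λ * z)) ≤ (q z - a) * Real.exp (Λ * z) * Real.exp (-(Λ * z)) := by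
            have := Real.exp_pos (-(Λ * z))
            gcongr
        _ = (q z - a) * (Real.exp (-(Λ * z)) * Real.exp (Λ * z)) := by ring
        _ = q z - a := by rw [h3, mul_one]
    · have h1 : q z1 ≤ q z := hqanti h.le
      have hCi : 0 ≤ C⁻¹ := by positivity
      calc C⁻¹ * Real.exp (-(Λ * z)) ≤ C⁻¹ * 1 := by gcongr
        _ ≤ q z1 - a := by rw [mul_one]; exact hCinv
        _ ≤ q z - a := by linarith
  · intro z hz
    have h3 : Real.exp (-(r * z)) * Real.exp (r * z) = 1 := by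
      rw [← Real.exp_add]; simp
    have h4 : (q z - a) * Real.exp (r * z) ≤ C := by
      rcases le_or_gt z1 z with h | h
      · refine (hup1 z h).trans ?_
        have : q z1 ≤ ℓ := hqℓ z1 hz10
        calc (q z1 - a) * Real.exp (r * z1) ≤ (ℓ - a) * Real.exp (r * z1) := by gcongr
          _ ≤ C := by
              rw [hC]
              have : 0 ≤ (q z1 - a)⁻¹ := by positivity
              linarith
      · have h6 : q z - a ≤ ℓ - a := by linarith [hqℓ z hz]
        have h7 : Real.exp (r * z) ≤ Real.exp (r * z1) := Real.exp_le_exp.2 (by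
          exact mul_le_mul_of_nonneg_left h.le hr)
        calc (q z - a) * Real.exp (r * z) ≤ (ℓ - a) * Real.exp (r * z1) := by
              gcongr
          _ ≤ C := by
              rw [hC]
              have : 0 ≤ (q z1 - a)⁻¹ := by positivity
              linarith
    calc q z - a = (q z - a) * Real.exp (r * z) * Real.exp (-(r * z)) := by
          rw [mul_assoc, mul_comm (Real.exp (r * z)), h3, mul_one]
      _ ≤ C * Real.exp (-(r * z)) := by
          have := Real.exp_pos (-(r * z))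
          gcongr

/-- gluing of derivatives -/
theorem glue {a x0 : ℝ} {g g' k k' : ℝ → ℝ} (hg : ∀ x, a < x → x ≤ x0 → HasDerivAt g (g' x) x)
    (hk : ∀ x, x0 ≤ x → HasDerivAt k (k' x) x) (h0 : g x0 = k x0) (h0' : g' x0 = k' x0) (x : ℝ)
    (hx : a < x) : HasDerivAt (fun x => if x ≤ x0 then g x else k x)
      (if x ≤ x0 then g' x else k' x) x := by
  rcases lt_trichotomy x x0 with h | h | h
  · rw [if_pos h.le]
    refine (hg x hx h.le).congr_of_eventuallyEq ?_
    filter_upwards [Iio_mem_nhds h] with y hy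
    rw [if_pos (mem_Iio.1 hy).le]
  · subst h
    rw [if_pos le_rfl]
    have h1 : HasDerivWithinAt (fun y => if y ≤ x then g y else k y) (g' x) (Iic x) x := by
      refine (hg x hx le_rfl).hasDerivWithinAt.congr ?_ ?_
      · intro y hy
        rw [if_pos (mem_Iic.1 hy)]
      · rw [if_pos le_rfl]
    have h2 : HasDerivWithinAt (fun y => if y ≤ x then g y else k y) (g' x) (Ici x) x := by
      rw [h0']
      refine (hk x le_rfl).hasDerivWithinAt.congr ?_ ?_
      · intro y hy
        rcases eq_or_lt_of_le (mem_Ici.1 hy) with h3 | h3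
        · rw [← h3, if_pos le_rfl, h0]
        · rw [if_neg (not_le.2 h3)]
      · rw [if_pos le_rfl, h0]
    have h3 := h1.union h2
    rw [Iic_union_Ici] at h3
    exact hasDerivWithinAt_univ.1 h3
  · rw [if_neg (not_le.2 h)]
    refine (hk x h.le).congr_of_eventuallyEq ?_
    filter_upwards [Ioi_mem_nhds h] with y hy
    rw [if_neg (not_le.2 (mem_Ioi.1 hy))]

theorem glue_cont {a x0 : ℝ} {g k : ℝ → ℝ} (hg : ContinuousOn g (Ioc a x0))
    (hk : ContinuousOn k (Ici x0)) (h0 : g x0 = k x0) :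
    ContinuousOn (fun x => if x ≤ x0 then g x else k x) (Ioi a) := by
  intro x hx
  have hx' : a < x := mem_Ioi.1 hx
  rcases lt_trichotomy x x0 with h | h | h
  · have h1 : ContinuousAt g x := (hg x ⟨hx', h.le⟩).continuousAt (Ioc_mem_nhds hx' h)
    refine (h1.congr ?_).continuousWithinAt
    filter_upwards [Iio_mem_nhds h] with y hy
    rw [if_pos (mem_Iio.1 hy).le]
  · subst h
    have h1 : ContinuousWithinAt (fun y => if y ≤ x then g y else k y) (Ioc a x) x := by
      refine (hg x ⟨hx', le_rfl⟩).congr ?_ ?_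
      · intro y hy
        rw [if_pos hy.2]
      · rw [if_pos le_rfl]
    have h2 : ContinuousWithinAt (fun y => if y ≤ x then g y else k y) (Ici x) x := by
      refine (hk x (mem_Ici.2 le_rfl)).congr ?_ ?_
      · intro y hy
        rcases eq_or_lt_of_le (mem_Ici.1 hy) with h3 | h3
        · rw [← h3, if_pos le_rfl, h0]
        · rw [if_neg (not_le.2 h3)]
      · rw [if_pos le_rfl, h0]
    have h3 := h1.union h2
    refine h3.mono ?_
    intro y hy
    rcases le_or_gt y x with h4 | h4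
    · exact Or.inl ⟨mem_Ioi.1 hy, h4⟩
    · exact Or.inr h4.le
  · have h1 : ContinuousAt k x := (hk x (mem_Ici.2 h.le)).continuousAt (Ici_mem_nhds h)
    refine (h1.congr ?_).continuousWithinAt
    filter_upwards [Ioi_mem_nhds h] with y hy
    rw [if_neg (not_le.2 (mem_Ioi.1 hy))]

/-- bounded positive extension of a function beyond a point -/
theorem extend {a x0 A : ℝ} {g g' : ℝ → ℝ} (hax : a < x0)
    (hg : ∀ x, a < x → x ≤ x0 → HasDerivAt g (g' x) x) (hc : ContinuousOn g' (Ioc a x0))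
    (hA : 0 < A) (hgA : A ≤ g x0) :
    ∃ p p' : ℝ → ℝ, (∀ x, a < x → HasDerivAt p (p' x) x) ∧ ContinuousOn p' (Ioi a) ∧
      (∀ x, x ≤ x0 → p x = g x ∧ p' x = g' x) ∧ (∀ x, x0 ≤ x → A / 2 ≤ p x) ∧
      (∀ x, x0 ≤ x → p x ≤ g x0 + A) ∧ (∀ x, x0 ≤ x → p' x ≤ max (g' x0) 0) ∧
      ∀ x, x0 ≤ x → |p' x| ≤ |g' x0| := by
  obtain ⟨w, hw⟩ : ∃ w : ℝ, w = A / (2 * (|g' x0| + 1)) := ⟨_, rfl⟩
  have hw0 : 0 < w := by rw [hw]; positivity
  have hwA : |g' x0| * w ≤ A / 2 := by
    rw [hw]
    calc |g' x0| * (A / (2 * (|g' x0| + 1))) = A / 2 * (|g' x0| / (|g' x0| + 1)) := by field_simp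
      _ ≤ A / 2 * 1 := by
          refine mul_le_mul_of_nonneg_left ?_ (by positivity)
          rw [div_le_one (by positivity)]
          linarith
      _ = A / 2 := mul_one _
  obtain ⟨k, hk⟩ : ∃ k : ℝ → ℝ, k = fun x => g x0 + g' x0 * (w * (1 - Real.exp (-((x - x0) / w)))) :=
    ⟨_, rfl⟩
  obtain ⟨k', hk'⟩ : ∃ k' : ℝ → ℝ, k' = fun x => g' x0 * Real.exp (-((x - x0) / w)) := ⟨_, rfl⟩
  have hkd : ∀ x, HasDerivAt k (k' x) x := by
    intro x
    have h1 : HasDerivAt (fun x : ℝ => -((x - x0) / w)) (-(1 / w)) x :=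
      (((hasDerivAt_id x).sub_const x0).div_const w).neg
    have h2 := ((((h1.exp).const_sub 1).const_mul w).const_mul (g' x0)).const_add (g x0)
    rw [hk, hk']
    refine h2.congr_deriv ?_
    field_simp
  have hkc : Continuous k' := by rw [hk']; fun_prop
  have h0 : g x0 = k x0 := by rw [hk]; simp
  have h0' : g' x0 = k' x0 := by rw [hk']; simp
  have he : ∀ x, x0 ≤ x → Real.exp (-((x - x0) / w)) ≤ 1 := by
    intro x hx
    refine Real.exp_le_one_iff.2 ?_
    have : 0 ≤ (x - x0) / w := div_nonneg (by linarith) hw0.le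
    linarith
  have hkb : ∀ x, x0 ≤ x → |k x - g x0| ≤ A / 2 := by
    intro x hx
    have h1 := he x hx
    have h2 := Real.exp_pos (-((x - x0) / w))
    rw [hk]
    simp only [add_sub_cancel_left]
    rw [abs_mul, abs_of_nonneg (mul_nonneg hw0.le (by linarith : 0 ≤ 1 - Real.exp (-((x - x0) / w))))]
    refine le_trans ?_ hwA
    refine mul_le_mul_of_nonneg_left ?_ (abs_nonneg _)
    nlinarith
  have hp1 : ∀ x, x0 ≤ x → (if x ≤ x0 then g x else k x) = k x := by
    intro x hx
    rcases eq_or_lt_of_le hx with h | h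
    · rw [← h, if_pos le_rfl, h0]
    · rw [if_neg (not_le.2 h)]
  have hp2 : ∀ x, x0 ≤ x → (if x ≤ x0 then g' x else k' x) = k' x := by
    intro x hx
    rcases eq_or_lt_of_le hx with h | h
    · rw [← h, if_pos le_rfl, h0']
    · rw [if_neg (not_le.2 h)]
  refine ⟨fun x => if x ≤ x0 then g x else k x, fun x => if x ≤ x0 then g' x else k' x,
    fun x hx => glue hg (fun x _ => hkd x) h0 h0' x hx, glue_cont hc hkc.continuousOn h0',
    fun x hx => ⟨if_pos hx, if_pos hx⟩, fun x hx => ?_, fun x hx => ?_, fun x hx => ?_,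
    fun x hx => ?_⟩
  · show A / 2 ≤ if x ≤ x0 then g x else k x
    rw [hp1 x hx]
    have := (abs_le.1 (hkb x hx)).1
    linarith
  · show (if x ≤ x0 then g x else k x) ≤ g x0 + A
    rw [hp1 x hx]
    have := (abs_le.1 (hkb x hx)).2
    linarith
  · show (if x ≤ x0 then g' x else k' x) ≤ max (g' x0) 0
    rw [hp2 x hx, hk']
    have h1 := he x hx
    have h2 := Real.exp_pos (-((x - x0) / w))
    simp only
    rcases le_total (g' x0) 0 with h3 | h3
    · exact (mul_nonpos_of_nonpos_of_nonneg h3 h2.le).trans (le_max_right _ _)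
    · refine le_trans ?_ (le_max_left _ _)
      nlinarith
  · show |if x ≤ x0 then g' x else k' x| ≤ |g' x0|
    rw [hp2 x hx, hk']
    have h1 := he x hx
    have h2 := Real.exp_pos (-((x - x0) / w))
    simp only
    rw [abs_mul, abs_of_pos h2]
    calc |g' x0| * Real.exp (-((x - x0) / w)) ≤ |g' x0| * 1 := by gcongr
      _ = |g' x0| := mul_one _

end Pool.Agent.H62.RF
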