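import Pool.Agent.H91.RF.TargetsA

/-!
# MP_609556_an: macroscopic picture at every speed
-/

set_option autoImplicit false

open MeasureTheory Set Filter Topology Metric
open Pool.Agent.H91.RD Pool.Agent.H91.RF

namespace Pool.Agent.H62.RF.MAC

lemma c_anti {f : ℝ → ℝ} {J : ℕ} {b c : ℕ → ℝ} {y : ℕ → ℝ → ℝ} (h : Ter f J b c y) :
    ∀ m l : ℕ, l ≤ m → m < J → c m ≤ c l := by
  intro m l hlm
  induction m, hlm using Nat.le_induction with
  | base => intro _; exact le_rfl
  | succ m hm ih =>
    intro hJ
    exact (h.mono m hJ).trans (ih (by omega))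

lemma b_mono {f : ℝ → ℝ} {J : ℕ} {b c : ℕ → ℝ} {y : ℕ → ℝ → ℝ} (h : Ter f J b c y) :
    ∀ m l : ℕ, l ≤ m → m ≤ J → b l ≤ b m := by
  intro m l hlm
  induction m, hlm using Nat.le_induction with
  | base => intro _; exact le_rfl
  | succ m hm ih =>
    intro hJ
    exact (ih (by omega)).trans (h.lt m (by omega)).le

lemma u_rng {N : ℕ} {f : ℝ → ℝ} {K : ℝ} {U : Set (E N)} {u : ℝ → E N → ℝ} (h : Stg f K U u)
    {t : ℝ} (ht : 0 < t) (x : E N) : 0 ≤ u t x ∧ u t x ≤ 1 := by
  have := h.sol.rng t ht.le x
  unfold lift0 at this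
  rwa [if_neg (not_le.2 ht)] at this

theorem mac (hMA : T_MA) (hMB : T_MB) : T_MAC := by
  intro N f K U u J b c y hS hT j hj
  classical
  -- the smallest index
  have hex : ∃ i, c i = c j := ⟨j, rfl⟩
  obtain ⟨i, hi⟩ : ∃ i, i = Nat.find hex := ⟨_, rfl⟩
  have hci : c i = c j := by rw [hi]; exact Nat.find_spec hex
  have hij : i ≤ j := by rw [hi]; exact Nat.find_min' hex rfl
  have himin : ∀ l < i, c l ≠ c j := fun l hl => Nat.find_min hex (by rw [← hi]; exact hl)
  -- the greatest index
  obtain ⟨k, hk⟩ : ∃ k, k = Nat.findGreatest (fun k => c k = c j) (J - 1) := ⟨_, rfl⟩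
  have hjk : j ≤ k := by
    rw [hk]
    exact Nat.le_findGreatest (by omega) rfl
  have hck : c k = c j := by
    rw [hk]
    exact Nat.findGreatest_spec (P := fun k => c k = c j) (show j ≤ J - 1 by omega) rfl
  have hkJ : k < J := by
    have : k ≤ J - 1 := by rw [hk]; exact Nat.findGreatest_le _
    omega
  have hkmax : k + 1 < J → c (k + 1) < c j := by
    intro h
    have h1 : c (k + 1) ≠ c j := by
      refine Nat.findGreatest_is_greatest (P := fun k => c k = c j) (n := J - 1) ?_ (by omega)
      rw [← hk]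
      omega
    exact lt_of_le_of_ne (c_anti hT (k + 1) j (by omega) h) h1
  refine ⟨i, k, hij, hjk, hkJ, ?_, ?_, ?_⟩
  · intro l hil hlk
    apply le_antisymm
    · rw [← hci]
      exact c_anti hT l i hil (by omega)
    · rw [← hck]
      exact c_anti hT k l hlk hkJ
  · rcases Nat.eq_zero_or_pos i with h0 | h0
    · exact Or.inl h0
    · right
      refine ⟨i - 1, by omega, ?_⟩
      exact lt_of_le_of_ne (c_anti hT j (i - 1) (by omega) hj) (himin (i - 1) (by omega)).symm
  · have hcj : 0 < c j := (hT.ext j hj).cpos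
    refine ⟨hcj, ?_, ?_, ?_, ?_, ?_, ?_, ?_⟩
    · have := b_mono hT i 0 (Nat.zero_le _) (by omega)
      rwa [hT.b0] at this
    · exact (b_mono hT k i (by omega) (by omega)).trans_lt (hT.lt k hkJ)
    · have := b_mono hT J (k + 1) (by omega) le_rfl
      rwa [hT.bJ] at this
    · intro ε hε
      have := hMB N f K U u J b c y hS hT i (by omega) ε hε
      rwa [hci] at this
    · intro ε hε
      have := hMA N f K U u J b c y hS hT k hkJ ε hε
      rwa [hck] at this
    · rcases Nat.eq_zero_or_pos i with h0 | h0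
      · refine ⟨1, one_pos, fun ε hε => ⟨1, one_pos, fun t ht x _ => ?_⟩⟩
        have := (u_rng hS (by linarith : 0 < t) x).1
        rw [h0, hT.b0]
        linarith
      · have hlt : c j < c (i - 1) :=
          lt_of_le_of_ne (c_anti hT j (i - 1) (by omega) hj) (himin (i - 1) (by omega)).symm
        refine ⟨(c (i - 1) - c j) / 2, by linarith, fun ε hε => ?_⟩
        have hε' : 0 < min ε ((c (i - 1) - c j) / 2) := lt_min hε (by linarith)
        obtain ⟨T, hT0, hTu⟩ := hMA N f K U u J b c y hS hT (i - 1) (by omega) _ hε'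
        refine ⟨T, hT0, fun t ht x hx => ?_⟩
        have h1 : i - 1 + 1 = i := by omega
        have h2 := hTu t ht x ?_
        · rw [h1] at h2
          have := min_le_left ε ((c (i - 1) - c j) / 2)
          linarith
        · refine hx.trans ?_
          have := min_le_right ε ((c (i - 1) - c j) / 2)
          have ht0 : 0 ≤ t := by linarith
          nlinarith
    · rcases Nat.lt_or_ge (k + 1) J with h0 | h0
      · have hlt := hkmax h0
        refine ⟨(c j - c (k + 1)) / 2, by linarith, fun ε hε => ?_⟩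
        have hε' : 0 < min ε ((c j - c (k + 1)) / 2) := lt_min hε (by linarith)
        obtain ⟨T, hT0, hTu⟩ := hMB N f K U u J b c y hS hT (k + 1) h0 _ hε'
        refine ⟨T, hT0, fun t ht x hx => ?_⟩
        have h2 := hTu t ht x ?_
        · have := min_le_left ε ((c j - c (k + 1)) / 2)
          linarith
        · refine le_trans ?_ hx
          have := min_le_right ε ((c j - c (k + 1)) / 2)
          have ht0 : 0 ≤ t := by linarith
          nlinarith
      · have hJ : k + 1 = J := by omega
        refine ⟨1, one_pos, fun ε hε => ⟨1, one_pos, fun t ht x _ => ?_⟩⟩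
        have := (u_rng hS (by linarith : 0 < t) x).2
        rw [hJ, hT.bJ]
        linarith

end Pool.Agent.H62.RF.MAC
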