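import Pool.Agent.H62.RF.MAC

/-!
# MP_609556_an: exponential bound ahead of the first speed
-/

set_option autoImplicit false

open MeasureTheory Set Filter Topology Metric
open Pool.Agent.H91.RD Pool.Agent.H91.RF

namespace Pool.Agent.H62.RF.MC

theorem mc (hBQ : T_BQ) (hMB : T_MB) (hSUPS : T_SUPS) : T_MC := by
  intro N f K U u J b c y hS hT ε hε
  have hJ := hT.J0
  have hc : 0 < c 0 := (hT.ext 0 hJ).cpos
  obtain ⟨σ, hσ⟩ : ∃ σ : ℝ, σ = min (c 0 / 4) (ε / (2 * (c 0 + 2))) := ⟨_, rfl⟩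
  have hσ0 : 0 < σ := by rw [hσ]; positivity
  have hσ1 : σ ≤ c 0 / 4 := by rw [hσ]; exact min_le_left _ _
  have hσ2 : (c 0 + 2) * σ ≤ ε / 2 := by
    have h1 : σ ≤ ε / (2 * (c 0 + 2)) := by rw [hσ]; exact min_le_right _ _
    calc (c 0 + 2) * σ ≤ (c 0 + 2) * (ε / (2 * (c 0 + 2))) := by gcongr
      _ = ε / 2 := by field_simp
  obtain ⟨m, C, Λ, q, hm, hC, hΛ, hqc, hqd, hqb, hq0, hqi, _, hql, hqu, _⟩ :=
    hSUPS f K J b c y hS.reac hS.lip hT 0 hJ σ hσ0
  obtain ⟨T₁, hT₁, hu⟩ := hBQ N f K U u J b c y hS hT 0 hJ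
    (fun h ε' hε' => hMB N f K U u J b c y hS hT (0 + 1) h ε' hε')
    σ m C Λ q hσ0 hm hC hΛ hqc hqd hqb hq0 hqi hql σ hσ0 (c 0 + 2) (by linarith)
  refine ⟨max T₁ (2 * Real.log (C + 1) / ε), lt_max_of_lt_left hT₁, fun t ht x hx1 hx2 => ?_⟩
  have ht1 : T₁ ≤ t := (le_max_left _ _).trans ht
  have ht2 : 2 * Real.log (C + 1) / ε ≤ t := (le_max_right _ _).trans ht
  have ht0 : 0 < t := by linarith
  rcases lt_or_ge (infDist x U) ((c 0 + σ + σ) * t) with hd | hd
  · have h1 := (MAC.u_rng hS ht0 x).2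
    refine h1.trans (Real.one_le_exp ?_)
    have h2 : c 0 / 2 * (infDist x U - c 0 * t) ≤ c 0 * σ * t := by nlinarith
    have h3 : c 0 * σ * t ≤ ε * t := by
      refine mul_le_mul_of_nonneg_right ?_ ht0.le
      nlinarith
    linarith
  · have h1 := hu t ht1 x (le_trans (by nlinarith) hd) hx2
    have h2 := hqu (infDist x U - (c 0 + σ + σ) * t) (by linarith)
    rw [hT.b0, sub_zero] at h2
    obtain ⟨X, hX⟩ : ∃ X : ℝ, X = -(c 0 / 2 * (infDist x U - c 0 * t)) + ε / 2 * t := ⟨_, rfl⟩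
    have e1 : -((c 0 / 2 - σ) * (infDist x U - (c 0 + σ + σ) * t)) ≤ X := by
      rw [hX]
      have h3 : σ * (infDist x U - (c 0 + σ + σ) * t) ≤ σ * (2 * t) := by
        refine mul_le_mul_of_nonneg_left ?_ hσ0.le
        nlinarith
      have h4 : (c 0 + 2) * σ * t ≤ ε / 2 * t := mul_le_mul_of_nonneg_right hσ2 ht0.le
      nlinarith
    have e2 : -((c 0 + 2) * t) ≤ X := by
      rw [hX]
      nlinarith
    have e3 : C + 1 ≤ Real.exp (ε / 2 * t) := by
      rw [← Real.log_le_iff_le_exp (by linarith)]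
      rw [div_le_iff₀ hε] at ht2
      linarith
    calc u t x ≤ q (infDist x U - (c 0 + σ + σ) * t) + Real.exp (-((c 0 + 2) * t)) := h1
      _ ≤ C * Real.exp X + Real.exp X := by
          have := Real.exp_le_exp.2 e1
          have := Real.exp_le_exp.2 e2
          refine add_le_add (h2.trans ?_) this
          gcongr
      _ = (C + 1) * Real.exp X := by ring
      _ ≤ Real.exp (ε / 2 * t) * Real.exp X := by gcongr
      _ = Real.exp (-(c 0 / 2 * (infDist x U - c 0 * t)) + ε * t) := by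
          rw [← Real.exp_add, hX]
          congr 1
          ring

end Pool.Agent.H62.RF.MC
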