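import Pool.Agent.H91.RF.TargetsA

/-!
# MP_609556_an: phase plane facts of one component
-/

set_option autoImplicit false

open MeasureTheory Set Filter Topology
open Pool.Agent.H91.RD Pool.Agent.H91.RF

namespace Pool.Agent.H62.RF

/-- the phase plane function -/
noncomputable def PP (y : ℝ → ℝ) (b x : ℝ) : ℝ := √(2 * y (b - x))

/-- the data of one component -/
structure Cmp (f : ℝ → ℝ) (K a b c : ℝ) (y : ℝ → ℝ) : Prop where
  lip : Lip f K
  a0 : 0 ≤ a
  ab : a < b
  b1 : b ≤ 1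
  fa : f a = 0
  fb : f b = 0
  c0 : 0 < c
  isy : IsYb f b c y
  pos : ∀ τ ∈ Ioo 0 (b - a), 0 < y τ

variable {f : ℝ → ℝ} {K a b c : ℝ} {y : ℝ → ℝ}

lemma Cmp.PPb (h : Cmp f K a b c y) : PP y b b = 0 := by
  unfold PP
  rw [sub_self, h.isy.1, mul_zero, Real.sqrt_zero]

lemma Cmp.PPc (h : Cmp f K a b c y) : ContinuousOn (PP y b) (Icc a b) := by
  unfold PP
  apply ContinuousOn.sqrt
  apply ContinuousOn.const_mul
  refine h.isy.2.1.comp (continuous_const.sub continuous_id).continuousOn ?_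
  intro v hv
  have h1 := hv.1
  have h2 := hv.2
  have h3 := h.a0
  exact ⟨by show 0 ≤ b - v; linarith, by show b - v ≤ b; linarith⟩

lemma PP_nonneg (x : ℝ) : 0 ≤ PP y b x := Real.sqrt_nonneg _

lemma Cmp.PPpos (h : Cmp f K a b c y) {x : ℝ} (hx : x ∈ Ioo a b) : 0 < PP y b x := by
  unfold PP
  apply Real.sqrt_pos.mpr
  have := h.pos (b - x) ⟨by linarith [hx.2], by linarith [hx.1]⟩
  positivity

lemma Cmp.PPd (h : Cmp f K a b c y) {x : ℝ} (hx : x ∈ Ioo a b) :
    HasDerivAt (PP y b) (c - f x / PP y b x) x := by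
  have hτ : b - x ∈ Ioo 0 b := ⟨by linarith [hx.2], by linarith [hx.1, h.a0]⟩
  have h1 := h.isy.2.2 (b - x) hτ
  have h2 : HasDerivAt (fun v : ℝ => b - v) (-1) x := by
    simpa using (hasDerivAt_id x).const_sub b
  have h3 : HasDerivAt (fun v : ℝ => y (b - v))
      ((f (b - (b - x)) - c * √(2 * max (y (b - x)) 0)) * (-1)) x :=
    HasDerivAt.comp x h1 h2
  have hp := h.pos (b - x) ⟨by linarith [hx.2], by linarith [hx.1]⟩
  have h4 := (h3.const_mul 2).sqrt (by positivity)
  have hpp := h.PPpos hx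
  have h5 : (2 * ((f (b - (b - x)) - c * √(2 * max (y (b - x)) 0)) * (-1))) /
      (2 * √(2 * y (b - x))) = c - f x / PP y b x := by
    rw [max_eq_left hp.le]
    have : √(2 * y (b - x)) = PP y b x := rfl
    rw [this, show b - (b - x) = x by ring]
    field_simp
    ring
  rw [h5] at h4
  exact h4

/-- upper bound of `f / P` -/
lemma Cmp.fP (h : Cmp f K a b c y) {x : ℝ} (hx : x ∈ Ioo a b) :
    f x ≤ 2 * (c + K + 1) * PP y b x := by
  by_contra hcon
  push Not at hcon
  have hK := h.lip.K0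
  have hc := h.c0
  obtain ⟨p0, hp0⟩ : ∃ p0 : ℝ, p0 = PP y b x := ⟨_, rfl⟩
  have hp0' : 0 < p0 := by rw [hp0]; exact h.PPpos hx
  rw [← hp0] at hcon
  have key := image_le_of_deriv_right_lt_deriv_boundary (f := PP y b)
    (f' := fun v => c - f v / PP y b v) (a := x) (b := b)
    (B := fun v => p0 - (K + 1) * (v - x)) (B' := fun _ => -((K + 1) * 1))
    (h.PPc.mono (Icc_subset_Icc_left hx.1.le))
    (fun v hv => (h.PPd ⟨hx.1.trans_le hv.1, hv.2⟩).hasDerivWithinAt)
    (by simp [hp0])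
    (fun v => by
      have h1 : HasDerivAt (fun v : ℝ => v - x) 1 v := (hasDerivAt_id v).sub_const x
      exact (h1.const_mul (K + 1)).const_sub p0)
    (by
      intro v hv hvB
      have hvI : v ∈ Ioo a b := ⟨hx.1.trans_le hv.1, hv.2⟩
      have h2 := h.PPpos hvI
      have h3 := h.lip.lip x v
      have h4 : |x - v| = v - x := by rw [abs_sub_comm, abs_of_nonneg (by linarith [hv.1])]
      rw [h4] at h3
      have h5 : f x - f v ≤ K * (v - x) := (le_abs_self _).trans h3
      have h6 : c + K + 1 < f v / PP y b v := by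
        rw [lt_div_iff₀ h2, hvB]
        have h7 : 0 ≤ v - x := by linarith [hv.1]
        nlinarith [mul_nonneg h7 hK.le, mul_nonneg h7 hc.le, mul_nonneg (mul_nonneg h7 hK.le) hK.le,
          mul_nonneg (mul_nonneg h7 hK.le) hc.le, mul_pos hp0' hc, mul_pos hp0' hK]
      linarith)
  have h1 := key (show b ∈ Icc x b from ⟨hx.2.le, le_rfl⟩)
  simp only [h.PPb] at h1
  have h3 := h.lip.lip x b
  have h4 : |x - b| = b - x := by rw [abs_sub_comm, abs_of_nonneg (by linarith [hx.2])]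
  rw [h4, h.fb, sub_zero] at h3
  have h5 := (le_abs_self _).trans h3
  have h6 : 0 < b - x := by linarith [hx.2]
  nlinarith [mul_pos h6 hK, mul_pos hp0' hc, mul_pos hp0' hK]

lemma Cmp.fX (h : Cmp f K a b c y) {x : ℝ} (hx : a ≤ x) : |f x| ≤ K * (x - a) := by
  have := h.lip.lip x a
  rwa [h.fa, sub_zero, abs_of_nonneg (by linarith : 0 ≤ x - a)] at this

/-- linear lower bound of `P` away from `b` -/
lemma Cmp.lowP (h : Cmp f K a b c y) {x0 α δ : ℝ} (hx0 : x0 < b) (hα : 0 < α) (hδ : 0 < δ)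
    (hn : ∀ x, a < x → x < a + δ → α * (x - a) ≤ PP y b x) :
    ∃ β : ℝ, 0 < β ∧ ∀ x, a < x → x ≤ x0 → β * (x - a) ≤ PP y b x := by
  rcases lt_or_ge x0 (a + δ) with h0 | h0
  · exact ⟨α, hα, fun x h1 h2 => hn x h1 (by linarith)⟩
  have hsub : Icc (a + δ) x0 ⊆ Icc a b := Icc_subset_Icc (by linarith) hx0.le
  obtain ⟨v, hv, hmin⟩ := isCompact_Icc.exists_isMinOn ⟨a + δ, le_rfl, h0⟩ (h.PPc.mono hsub)
  have hvp : 0 < PP y b v := h.PPpos ⟨by linarith [hv.1], by linarith [hv.2]⟩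
  have hba : 0 < b - a := by linarith [h.ab]
  refine ⟨min α (PP y b v / (b - a)), lt_min hα (by positivity), fun x h1 h2 => ?_⟩
  have h3 : 0 < x - a := by linarith
  rcases lt_or_ge x (a + δ) with h4 | h4
  · exact (mul_le_mul_of_nonneg_right (min_le_left _ _) h3.le).trans (hn x h1 h4)
  · have h5 : PP y b v ≤ PP y b x := hmin ⟨h4, h2⟩
    calc min α (PP y b v / (b - a)) * (x - a) ≤ PP y b v / (b - a) * (x - a) :=
          mul_le_mul_of_nonneg_right (min_le_right _ _) h3.le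
      _ = PP y b v * ((x - a) / (b - a)) := by ring
      _ ≤ PP y b v * 1 := by
          refine mul_le_mul_of_nonneg_left ?_ hvp.le
          rw [div_le_one hba]
          linarith
      _ ≤ PP y b x := by rw [mul_one]; exact h5

lemma cmp_of_ter {J : ℕ} {bb cc : ℕ → ℝ} {yy : ℕ → ℝ → ℝ} (hL : Lip f K)
    (hT : Ter f J bb cc yy) {j : ℕ} (hj : j < J) :
    Cmp f K (bb j) (bb (j + 1)) (cc j) (yy j) := by
  have hmono : ∀ m l : ℕ, l ≤ m → m ≤ J → bb l ≤ bb m := by
    intro m l hlm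
    induction m, hlm using Nat.le_induction with
    | base => intro _; exact le_rfl
    | succ m hm ih =>
      intro hJ
      exact (ih (by omega)).trans (hT.lt m (by omega)).le
  refine ⟨hL, ?_, hT.lt j hj, ?_, hT.zer j hj.le, hT.zer (j + 1) hj, (hT.ext j hj).cpos,
    (hT.ext j hj).isy, hT.pos j hj⟩
  · have := hmono j 0 (Nat.zero_le _) hj.le
    rwa [hT.b0] at this
  · have := hmono J (j + 1) hj le_rfl
    rwa [hT.bJ] at this

end Pool.Agent.H62.RF
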