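import Pool.Agent.H62.RF.Phase
import Pool.Agent.H62.RF.Flow

/-!
# MP_609556_an: super-profile faster than the front
-/

set_option autoImplicit false

open MeasureTheory Set Filter Topology
open Pool.Agent.H91.RD Pool.Agent.H91.RF

namespace Pool.Agent.H62.RF.SUPS

variable {f : ℝ → ℝ} {K a b c : ℝ} {y : ℝ → ℝ}

/-- the key inequality -/
lemma key (h : Cmp f K a b c y) {s e σ α x0 x : ℝ} (hs0 : 0 < s) (hs1 : s ≤ 1 / 4) (he : 0 < e)
    (hx : x ∈ Ioo a b) (hα : ∀ x, a < x → x ≤ x0 → α * (x - a) ≤ PP y b x) (hesα : e ≤ s * α)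
    (hpos : ∀ x, x0 ≤ x → x < b → 0 < f x)
    (hσ : e + 3 * s * (2 * (c + K + 1)) ≤ σ / 2) :
    (1 - s) * (c - f x / PP y b x) + e + f x / ((1 - s) * PP y b x + e * (x - a)) ≤
      c + σ / 2 := by
  have hK := h.lip.K0
  have hc := h.c0
  have hP := h.PPpos hx
  have hX : 0 < x - a := by linarith [hx.1]
  have hg : 0 < (1 - s) * PP y b x + e * (x - a) := by
    have : 0 < 1 - s := by linarith
    positivity
  obtain ⟨p, hp⟩ : ∃ p : ℝ, p = PP y b x := ⟨_, rfl⟩
  obtain ⟨g, hgd⟩ : ∃ g : ℝ, g = (1 - s) * PP y b x + e * (x - a) := ⟨_, rfl⟩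
  have hM := h.fP hx
  rw [← hgd]
  rw [← hgd] at hg
  rw [← hp] at hP hM hgd ⊢
  have hfM : f x / p ≤ 2 * (c + K + 1) := by rw [div_le_iff₀ hP]; exact hM
  rcases le_or_gt 0 (f x) with h0 | h0
  · -- `f ≥ 0`
    have h1 : (1 - s) * p ≤ g := by
      rw [hgd]
      have : 0 ≤ e * (x - a) := by positivity
      linarith
    have h2 : f x / g ≤ f x / ((1 - s) * p) :=
      div_le_div_of_nonneg_left h0 (by
        have : 0 < 1 - s := by linarith
        positivity) h1
    have h3 : f x / ((1 - s) * p) = (f x / p) * (1 / (1 - s)) := by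
      have : (1 - s) ≠ 0 := by
        have : 0 < 1 - s := by linarith
        exact this.ne'
      field_simp
    have h4 : 1 / (1 - s) ≤ (1 - s) + 3 * s := by
      rw [div_le_iff₀ (by linarith)]
      nlinarith
    have h5 : 0 ≤ f x / p := by positivity
    have h6 : (f x / p) * (1 / (1 - s)) ≤ (f x / p) * ((1 - s) + 3 * s) :=
      mul_le_mul_of_nonneg_left h4 h5
    have h7 : (f x / p) * (3 * s) ≤ 2 * (c + K + 1) * (3 * s) :=
      mul_le_mul_of_nonneg_right hfM (by positivity)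
    have h8 : (1 - s) * c ≤ c := by nlinarith
    nlinarith
  · -- `f < 0`
    have hxx : x ≤ x0 := by
      by_contra hcon
      push Not at hcon
      have := hpos x hcon.le hx.2
      linarith
    have h1 : e * (x - a) ≤ s * p := by
      have h2 := hα x hx.1 hxx
      rw [← hp] at h2
      calc e * (x - a) ≤ s * α * (x - a) := mul_le_mul_of_nonneg_right hesα hX.le
        _ = s * (α * (x - a)) := by ring
        _ ≤ s * p := mul_le_mul_of_nonneg_left h2 hs0.le
    have h2 : g ≤ p := by rw [hgd]; linarith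
    have h3 : (1 - s) * g ≤ p := by nlinarith
    have h4 : f x / g ≤ (1 - s) * (f x / p) := by
      rw [div_le_iff₀ hg]
      have h5 : (1 - s) * (f x / p) * g = (f x / p) * ((1 - s) * g) := by ring
      rw [h5]
      have h6 : f x / p ≤ 0 := div_nonpos_of_nonpos_of_nonneg h0.le hP.le
      have h7 : (f x / p) * p = f x := by field_simp
      calc f x = (f x / p) * p := h7.symm
        _ ≤ (f x / p) * ((1 - s) * g) := mul_le_mul_of_nonpos_left h3 h6
    have h8 : (1 - s) * c ≤ c := by nlinarith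
    have h9 : 0 ≤ 3 * s * (2 * (c + K + 1)) := by positivity
    nlinarith

lemma aux1 {s lp e : ℝ} (h : e ≤ s * lp / 2) (h2 : 0 < s * lp) : (1 - s) * lp + e < lp := by
  nlinarith

lemma aux2 {s X Y e : ℝ} (hs : 0 < s) (hX : 0 ≤ X) (hXY : X ≤ Y) :
    (1 - s) * X + e ≤ 1 * Y + e := by
  nlinarith

lemma aux3 {s c K σ : ℝ} (hs : 0 < s) (hK : 0 < K) (hc : 0 < c)
    (h : 3 * s * (2 * (c + K + 1)) ≤ σ / 4) : s * c ≤ σ / 4 := by
  have h1 : 0 < s * K := mul_pos hs hK
  have h2 : 0 < s * c := mul_pos hs hc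
  nlinarith

lemma aux4 {s c lp σ ε1 : ℝ} (hs : 0 < s) (hs1 : s ≤ 1 / 4) (hlp : c / 2 ≤ lp)
    (h : s * c ≤ σ / 4) (hε : ε1 ≤ σ / 4) (hε0 : 0 < ε1) (hσ : 0 < σ) :
    c / 2 - σ ≤ (1 - s) * (lp - ε1) := by
  have h1 : 0 < s * ε1 := mul_pos hs hε0
  have h2 : (1 - s) * (c / 2) ≤ (1 - s) * lp := mul_le_mul_of_nonneg_left hlp (by linarith)
  nlinarith

lemma aux5 {s lp e Λ ε1 : ℝ} (hs : 0 < s) (hε0 : 0 < ε1) (h : ε1 ≤ Λ - ((1 - s) * lp + e)) :
    (1 - s) * (lp + ε1) + e ≤ Λ := by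
  have h1 : 0 < s * ε1 := mul_pos hs hε0
  nlinarith

lemma aux6 {c σ σ0 z : ℝ} (hz : 0 ≤ z) (h : σ ≤ σ0) :
    -((c / 2 - σ) * z) ≤ -((c / 2 - σ0) * z) := by
  nlinarith

lemma aux7 {c κ Λ D : ℝ} (hD : D ^ 2 = c ^ 2 - 4 * κ) (h1 : c / 2 < Λ) (h2 : Λ < (c + D) / 2) :
    Λ ^ 2 - c * Λ + κ < 0 := by
  have h3 : (2 * Λ - c) ^ 2 < D ^ 2 := by
    apply pow_lt_pow_left₀ _ (by linarith) (by norm_num)
    linarith
  nlinarith

theorem sups (hKAPL : T_KAPL) : T_SUPS := by
  intro f K J bb cc yy hR hL hT j hj σ0 hσ0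
  obtain ⟨a, ha⟩ : ∃ a, a = bb j := ⟨_, rfl⟩
  obtain ⟨b, hb⟩ : ∃ b, b = bb (j + 1) := ⟨_, rfl⟩
  obtain ⟨c, hc⟩ : ∃ c, c = cc j := ⟨_, rfl⟩
  obtain ⟨y, hy⟩ : ∃ y, y = yy j := ⟨_, rfl⟩
  obtain ⟨κ, hκ⟩ : ∃ κ, κ = fp f (bb j) := ⟨_, rfl⟩
  have h : Cmp f K a b c y := by rw [ha, hb, hc, hy]; exact cmp_of_ter hL hT hj
  have hK0 := hL.K0
  have hc0 := h.c0
  obtain ⟨lp, hlp⟩ : ∃ lp, lp = (c + √(c ^ 2 - 4 * κ)) / 2 := ⟨_, rfl⟩
  have hlpc : c / 2 ≤ lp := by
    rw [hlp]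
    have := Real.sqrt_nonneg (c ^ 2 - 4 * κ)
    linarith
  have hlp0 : 0 < lp := by linarith
  -- slope at `a`
  have hslope : ∀ ε > 0, ∃ δ > 0, ∀ x, a < x → x < a + δ →
      (lp - ε) * (x - a) ≤ PP y b x ∧ PP y b x ≤ (lp + ε) * (x - a) := by
    intro ε hε
    have := hKAPL f K J bb cc yy hR hL hT j hj ε hε
    rw [← ha, ← hb, ← hc, ← hy] at this
    rw [ha, ← hκ, ← hlp, ← ha] at this
    exact this
  -- positivity of `f` near `b`
  obtain ⟨x0, hx0a, hx0b, hx0f⟩ : ∃ x0, a < x0 ∧ x0 < b ∧ ∀ x, x0 ≤ x → x < b → 0 < f x := by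
    obtain ⟨δ, hδ, hδ1, hδ2⟩ := hT.near j hj
    rw [← ha, ← hb] at hδ1
    rw [← hb] at hδ2
    exact ⟨b - δ / 2, by linarith, by linarith, fun x h1 h2 => hδ2 x ⟨by linarith, h2⟩⟩
  -- lower bound of the slope
  obtain ⟨δ1, hδ1, hn1⟩ := hslope (lp / 2) (by positivity)
  obtain ⟨α, hα0, hα⟩ := h.lowP hx0b (show 0 < lp / 2 by positivity) hδ1 (fun x h1 h2 => by
    have := (hn1 x h1 h2).1
    linarith)
  -- constants
  obtain ⟨σ, hσ⟩ : ∃ σ, σ = min σ0 (c / 4) := ⟨_, rfl⟩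
  have hσp : 0 < σ := by rw [hσ]; positivity
  have hσ1 : σ ≤ σ0 := by rw [hσ]; exact min_le_left _ _
  have hσ2 : σ ≤ c / 4 := by rw [hσ]; exact min_le_right _ _
  obtain ⟨M, hM⟩ : ∃ M, M = 2 * (c + K + 1) := ⟨_, rfl⟩
  have hM0 : 0 < M := by rw [hM]; positivity
  obtain ⟨s, hs⟩ : ∃ s, s = min (1 / 4) (σ / (12 * M)) := ⟨_, rfl⟩
  have hs0 : 0 < s := by rw [hs]; positivity
  have hs1 : s ≤ 1 / 4 := by rw [hs]; exact min_le_left _ _
  have hs2 : 3 * s * M ≤ σ / 4 := by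
    have h1 : s ≤ σ / (12 * M) := by rw [hs]; exact min_le_right _ _
    calc 3 * s * M ≤ 3 * (σ / (12 * M)) * M := by gcongr
      _ = σ / 4 := by field_simp; norm_num
  obtain ⟨e, he⟩ : ∃ e, e = min (s * α) (min (s * lp / 2) (σ / 4)) := ⟨_, rfl⟩
  have he0 : 0 < e := by rw [he]; positivity
  have he1 : e ≤ s * α := by rw [he]; exact min_le_left _ _
  have he2 : e ≤ s * lp / 2 := by
    rw [he]; exact (min_le_right _ _).trans (min_le_left _ _)
  have he3 : e ≤ σ / 4 := by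
    rw [he]; exact (min_le_right _ _).trans (min_le_right _ _)
  have hσs : e + 3 * s * (2 * (c + K + 1)) ≤ σ / 2 := by rw [← hM]; linarith
  obtain ⟨Λ, hΛ⟩ : ∃ Λ, Λ = (max ((1 - s) * lp + e) (c / 2) + lp) / 2 := ⟨_, rfl⟩
  have hslp : 0 < s * lp := by positivity
  have hΛ1 : (1 - s) * lp + e < Λ := by
    rw [hΛ]
    have h1 := le_max_left ((1 - s) * lp + e) (c / 2)
    have h2 := aux1 he2 hslp
    linarith
  have hΛc : c / 2 ≤ Λ := by
    rw [hΛ]
    have := le_max_right ((1 - s) * lp + e) (c / 2)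
    linarith
  have hΛ0 : 0 < Λ := by linarith
  obtain ⟨ε1, hε1⟩ : ∃ ε1, ε1 = min (σ / 4) (Λ - ((1 - s) * lp + e)) := ⟨_, rfl⟩
  have hε10 : 0 < ε1 := by rw [hε1]; exact lt_min (by positivity) (by linarith)
  have hε11 : ε1 ≤ σ / 4 := by rw [hε1]; exact min_le_left _ _
  have hε12 : ε1 ≤ Λ - ((1 - s) * lp + e) := by rw [hε1]; exact min_le_right _ _
  obtain ⟨δ2, hδ2, hn2⟩ := hslope ε1 hε10
  -- the function
  obtain ⟨g, hg⟩ : ∃ g : ℝ → ℝ, g = fun x => (1 - s) * PP y b x + e * (x - a) := ⟨_, rfl⟩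
  obtain ⟨g', hg'⟩ : ∃ g' : ℝ → ℝ, g' = fun x => (1 - s) * (c - f x / PP y b x) + e := ⟨_, rfl⟩
  have hs1' : 0 < 1 - s := by linarith
  have hgd : ∀ x, a < x → x < b → HasDerivAt g (g' x) x := by
    intro x h1 h2
    have h3 := (h.PPd ⟨h1, h2⟩).const_mul (1 - s)
    have h4 : HasDerivAt (fun x : ℝ => e * (x - a)) (e * 1) x :=
      ((hasDerivAt_id x).sub_const a).const_mul e
    rw [hg, hg']
    have h5 := h3.add h4
    rw [mul_one] at h5
    exact h5
  have hfc : Continuous f := by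
    have : LipschitzWith ⟨K, hK0.le⟩ f := LipschitzWith.of_dist_le_mul fun x z => by
      rw [Real.dist_eq, Real.dist_eq]
      exact hL.lip x z
    exact this.continuous
  have hgc : ContinuousOn g' (Ioo a b) := by
    have h1 : ContinuousOn (fun x => f x / PP y b x) (Ioo a b) :=
      hfc.continuousOn.div (h.PPc.mono Ioo_subset_Icc_self) fun x hx => (h.PPpos hx).ne'
    rw [hg']
    exact (continuousOn_const.mul (continuousOn_const.sub h1)).add continuousOn_const
  have hgkey : ∀ x, a < x → x < b → g' x + f x / g x ≤ c + σ / 2 := by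
    intro x h1 h2
    rw [hg, hg']
    exact key h hs0 hs1 he0 ⟨h1, h2⟩ hα he1 hx0f hσs
  have hgpos : ∀ x, a < x → x < b → 0 < g x := by
    intro x h1 h2
    rw [hg]
    have h3 := h.PPpos (x := x) ⟨h1, h2⟩
    have : 0 < x - a := by linarith
    positivity
  -- bound of the derivative
  obtain ⟨Bg, hBg⟩ : ∃ Bg, Bg = c + (M + K / α) + e := ⟨_, rfl⟩
  have hKα : 0 < K / α := by positivity
  have hg'b : ∀ x, a < x → x < b → |g' x| ≤ Bg := by
    intro x h1 h2
    have hP := h.PPpos (x := x) ⟨h1, h2⟩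
    have h3 : f x / PP y b x ≤ M := by
      rw [div_le_iff₀ hP, hM]
      exact h.fP ⟨h1, h2⟩
    have h4 : -(K / α) ≤ f x / PP y b x := by
      rcases le_or_gt 0 (f x) with h5 | h5
      · have : 0 ≤ f x / PP y b x := by positivity
        linarith
      · have hxx : x ≤ x0 := by
          by_contra hcon
          push Not at hcon
          have := hx0f x hcon.le h2
          linarith
        rw [le_div_iff₀ hP]
        have h6 := (abs_le.1 (h.fX (x := x) h1.le)).1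
        have h7 := hα x h1 hxx
        have h8 : K / α * (α * (x - a)) ≤ K / α * PP y b x := mul_le_mul_of_nonneg_left h7 hKα.le
        have h9 : K / α * (α * (x - a)) = K * (x - a) := by field_simp
        rw [h9] at h8
        linarith
    have h5 : |f x / PP y b x| ≤ M + K / α := by
      rw [abs_le]
      constructor <;> linarith
    rw [hg', hBg]
    simp only
    calc |(1 - s) * (c - f x / PP y b x) + e| ≤ |(1 - s) * (c - f x / PP y b x)| + |e| :=
          abs_add_le _ _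
      _ = (1 - s) * |c - f x / PP y b x| + e := by rw [abs_mul, abs_of_pos hs1', abs_of_pos he0]
      _ ≤ 1 * (|c| + |f x / PP y b x|) + e := by
          exact aux2 hs0 (abs_nonneg _) (abs_sub c (f x / PP y b x))
      _ ≤ c + (M + K / α) + e := by
          rw [abs_of_pos hc0]
          linarith
  -- extension
  obtain ⟨a1, ha1⟩ : ∃ a1, a1 = e * (x0 - a) := ⟨_, rfl⟩
  have ha10 : 0 < a1 := by
    rw [ha1]
    have : 0 < x0 - a := by linarith
    positivity
  obtain ⟨m, hm⟩ : ∃ m, m = a1 * σ / (16 * K) := ⟨_, rfl⟩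
  have hm0 : 0 < m := by rw [hm]; positivity
  have hKm : K * m = a1 * σ / 16 := by rw [hm]; field_simp
  obtain ⟨x2, hx2⟩ : ∃ x2, x2 = max x0 (b - m) := ⟨_, rfl⟩
  have hx20 : x0 ≤ x2 := by rw [hx2]; exact le_max_left _ _
  have hx21 : b - m ≤ x2 := by rw [hx2]; exact le_max_right _ _
  have hx2b : x2 < b := by rw [hx2]; exact max_lt hx0b (by linarith)
  have hx2a : a < x2 := by linarith
  have hfsm : ∀ x, x2 ≤ x → x ≤ b + m → f x ≤ a1 * σ / 16 := by
    intro x h1 h2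
    have h3 := hL.lip x b
    rw [h.fb, sub_zero] at h3
    have h4 : |x - b| ≤ m := by rw [abs_le]; constructor <;> linarith
    rw [← hKm]
    exact (le_abs_self _).trans (h3.trans (mul_le_mul_of_nonneg_left h4 hK0.le))
  have hga1 : a1 ≤ g x2 := by
    rw [hg, ha1]
    have h3 := h.PPpos (x := x2) ⟨hx2a, hx2b⟩
    have h4 : e * (x0 - a) ≤ e * (x2 - a) := by gcongr
    have h5 : 0 < (1 - s) * PP y b x2 := by positivity
    simp only
    linarith
  obtain ⟨p, p', hpd, hpc, hpg, hpl, hpu, hpm, hpa⟩ := extend hx2a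
    (fun x h1 h2 => hgd x h1 (by linarith)) (hgc.mono (fun x hx => ⟨hx.1, by linarith [hx.2]⟩))
    ha10 hga1
  have hppos : ∀ x, a < x → 0 < p x := by
    intro x h1
    rcases le_total x x2 with h2 | h2
    · rw [(hpg x h2).1]
      exact hgpos x h1 (by linarith)
    · exact lt_of_lt_of_le (by positivity) (hpl x h2)
  have hpkey : ∀ x, a < x → x ≤ b + m → p' x + f x / p x ≤ c + σ := by
    intro x h1 h2
    rcases le_total x x2 with h3 | h3
    · rw [(hpg x h3).1, (hpg x h3).2]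
      have := hgkey x h1 (by linarith)
      linarith
    · have h4 := hpm x h3
      have h5 : g' x2 ≤ c + σ / 2 := by
        have h6 := hgkey x2 hx2a hx2b
        have h7 := hx0f x2 hx20 hx2b
        have h8 := hgpos x2 hx2a hx2b
        have h9 : 0 < f x2 / g x2 := by positivity
        linarith
      have h6 : max (g' x2) 0 ≤ c + σ / 2 := max_le h5 (by linarith)
      have h7 : f x / p x ≤ σ / 8 := by
        rw [div_le_iff₀ (hppos x h1)]
        have h8 := hfsm x h3 h2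
        have h9 := hpl x h3
        have h10 : σ / 8 * (a1 / 2) ≤ σ / 8 * p x := mul_le_mul_of_nonneg_left h9 (by positivity)
        linarith
      linarith
  have hp'b : ∀ x, a < x → |p' x| ≤ Bg := by
    intro x h1
    rcases le_total x x2 with h3 | h3
    · rw [(hpg x h3).2]
      exact hg'b x h1 (by linarith)
    · exact (hpa x h3).trans (hg'b x2 hx2a hx2b)
  -- the flow
  obtain ⟨δ, hδ⟩ : ∃ δ, δ = min δ2 (x2 - a) := ⟨_, rfl⟩
  have hδ0 : 0 < δ := by rw [hδ]; exact lt_min hδ2 (by linarith)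
  have hδ21 : δ ≤ δ2 := by rw [hδ]; exact min_le_left _ _
  have hδ22 : δ ≤ x2 - a := by rw [hδ]; exact min_le_right _ _
  obtain ⟨q, C, hC1, hq2, hq0, hqa, hqd, hqd2, hqℓ, hql, hqu⟩ := flow_tails (a := a) (ℓ := b + m)
    (r := c / 2 - σ) (Λ := Λ) (B := g x2 + a1) (δ := δ) (by linarith [h.ab]) hpd hpc hppos
    (fun x hx => hpu x (by linarith)) hδ0 (by linarith)
    (by
      intro x h1 h2
      rw [(hpg x (by linarith)).1, hg]
      have h3 := (hn2 x h1 (by linarith)).1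
      have h4 : 0 < x - a := by linarith
      have h5 : (1 - s) * ((lp - ε1) * (x - a)) ≤ (1 - s) * PP y b x :=
        mul_le_mul_of_nonneg_left h3 hs1'.le
      have h6 : c / 2 - σ ≤ (1 - s) * (lp - ε1) :=
        aux4 hs0 hs1 hlpc (aux3 hs0 hK0 hc0 (by rw [← hM]; exact hs2)) hε11 hε10 hσp
      have h7 : (c / 2 - σ) * (x - a) ≤ (1 - s) * (lp - ε1) * (x - a) :=
        mul_le_mul_of_nonneg_right h6 h4.le
      have h8 : 0 < e * (x - a) := by positivity
      simp only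
      linarith)
    (by
      intro x h1 h2
      rw [(hpg x (by linarith)).1, hg]
      have h3 := (hn2 x h1 (by linarith)).2
      have h4 : 0 < x - a := by linarith
      have h5 : (1 - s) * PP y b x ≤ (1 - s) * ((lp + ε1) * (x - a)) :=
        mul_le_mul_of_nonneg_left h3 hs1'.le
      have h6 : (1 - s) * (lp + ε1) + e ≤ Λ := aux5 hs0 hε10 hε12
      have h7 : ((1 - s) * (lp + ε1) + e) * (x - a) ≤ Λ * (x - a) :=
        mul_le_mul_of_nonneg_right h6 h4.le
      simp only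
      linarith)
  have hqb : ∀ z, 0 ≤ z → q z ≤ b + m := hqℓ
  have hBg0 : 0 < Bg := by rw [hBg]; positivity
  refine ⟨m, max C Bg, Λ, q, hm0, hC1.trans (le_max_left _ _), hΛ0, hq2, ?_, ?_, ?_, ?_, ?_, ?_,
    ?_, ?_⟩
  · intro z
    rw [hqd z]
    linarith [hppos (q z) (hqa z)]
  · intro z
    rw [← ha]
    exact hqa z
  · rw [← hb]
    exact hq0
  · intro z hz
    have h1 := hpkey (q z) (hqa z) (hqb z hz)
    have h2 := hppos (q z) (hqa z)
    rw [hqd2 z, hqd z, ← hc]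
    have h3 : f (q z) = (f (q z) / p (q z)) * p (q z) := by field_simp
    have h4 : (p' (q z) + f (q z) / p (q z)) * p (q z) ≤ (c + σ0) * p (q z) :=
      mul_le_mul_of_nonneg_right (by linarith) h2.le
    linarith
  · intro z hz
    rw [hqd2 z, hqd z, abs_mul, abs_neg]
    exact mul_le_mul_of_nonneg_right ((hp'b (q z) (hqa z)).trans (le_max_right _ _))
      (abs_nonneg _)
  · intro z hz
    rw [← ha]
    refine le_trans ?_ (hql z hz)
    have h1 := Real.exp_pos (-(Λ * z))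
    refine mul_le_mul_of_nonneg_right ?_ h1.le
    exact inv_anti₀ (by linarith) (le_max_left _ _)
  · intro z hz
    rw [← ha, ← hc]
    refine (hqu z hz).trans ?_
    have h1 : Real.exp (-((c / 2 - σ) * z)) ≤ Real.exp (-((c / 2 - σ0) * z)) :=
      Real.exp_le_exp.2 (aux6 hz hσ1)
    have h2 := Real.exp_pos (-((c / 2 - σ) * z))
    exact mul_le_mul (le_max_left _ _) h1 h2.le (by positivity)
  · intro hκ4
    rw [← hκ, ← hc] at hκ4
    rw [← hκ, ← hc]
    obtain ⟨D, hD⟩ : ∃ D, D = √(c ^ 2 - 4 * κ) := ⟨_, rfl⟩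
    have hD0 : 0 < D := by rw [hD]; exact Real.sqrt_pos.2 (by linarith)
    have hD2 : D ^ 2 = c ^ 2 - 4 * κ := by rw [hD]; exact Real.sq_sqrt (by linarith)
    have hlpD : lp = (c + D) / 2 := by rw [hlp, hD]
    have h1 : Λ < lp := by
      rw [hΛ]
      have : max ((1 - s) * lp + e) (c / 2) < lp := max_lt (aux1 he2 hslp) (by linarith)
      linarith
    have h2 : c / 2 < Λ := by
      rw [hΛ]
      have := le_max_right ((1 - s) * lp + e) (c / 2)
      linarith
    exact ⟨h2, aux7 hD2 h2 (by rw [← hlpD]; exact h1)⟩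

end Pool.Agent.H62.RF.SUPS
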